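import Mathlib

set_option autoImplicit false

open Polynomial Finset Real

namespace Pool.Agent.Results.MP_29b953_an.Cheb

/-- `f` is a compressing function for `S`. -/
def Compresses (f : ℝ[X]) (S : Finset ℝ) : Prop :=
  ∃ x₀ ∈ S, S = (range S.card).image fun i => (fun x => f.eval x)^[i] x₀

lemma three (m : ℕ) : ∃ c : ℕ, Odd c ∧ 3 ^ 2 ^ (m + 1) = 1 + c * 2 ^ (m + 3) := by
  induction m with
  | zero => exact ⟨1, odd_one, by norm_num⟩
  | succ m ih =>
    obtain ⟨c, hc, e⟩ := ih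
    refine ⟨c + 2 * (c ^ 2 * 2 ^ (m + 1)), hc.add_even (even_two_mul _), ?_⟩
    rw [pow_succ 2 (m + 1), pow_mul, e]
    ring

noncomputable def x (m j : ℕ) : ℝ := cos (2 * π * 3 ^ j / 2 ^ (m + 4))

lemma x_succ (m j : ℕ) : x m (j + 1) = 4 * x m j ^ 3 - 3 * x m j := by
  rw [x, x, ← cos_three_mul]
  congr 1
  ring

lemma x_half (m j : ℕ) : x m (j + 2 ^ (m + 1)) = -x m j := by
  obtain ⟨c, hc, e⟩ := three m
  have e' : (3 : ℝ) ^ 2 ^ (m + 1) = 1 + c * 2 ^ (m + 3) := by exact_mod_cast e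
  have : 2 * π * 3 ^ (j + 2 ^ (m + 1)) / 2 ^ (m + 4) =
      2 * π * 3 ^ j / 2 ^ (m + 4) + (3 ^ j * c : ℕ) * π := by
    rw [pow_add, e']
    push_cast
    field_simp
    ring
  rw [x, this, cos_add_nat_mul_pi, Odd.neg_one_pow ((Odd.pow (by decide)).mul hc), x]
  ring

lemma x_mod (m j : ℕ) : x m (j % 2 ^ (m + 2)) = x m j := by
  have h : ∀ k i, x m (i + 2 ^ (m + 2) * k) = x m i := by
    intro k
    induction k with
    | zero => simp
    | succ k ih =>
      intro i
      rw [show i + 2 ^ (m + 2) * (k + 1) = i + 2 ^ (m + 2) * k + 2 ^ (m + 1) + 2 ^ (m + 1) by ring,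
        x_half, x_half, neg_neg, ih]
  rw [← h (j / 2 ^ (m + 2)), Nat.mod_add_div]

lemma ord (m : ℕ) : orderOf (3 : ZMod (2 ^ (m + 4))) = 2 ^ (m + 2) := by
  haveI : Fact (Nat.Prime 2) := ⟨Nat.prime_two⟩
  refine orderOf_eq_prime_pow ?_ ?_
  · obtain ⟨c, hc, e⟩ := three m
    intro h
    have h2 : ((c * 2 ^ (m + 3) : ℕ) : ZMod (2 ^ (m + 4))) = 0 := by
      have := congrArg (Nat.cast : ℕ → ZMod (2 ^ (m + 4))) e
      push_cast at this ⊢
      rw [h] at this
      exact left_eq_add.1 this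
    rw [ZMod.natCast_eq_zero_iff, pow_succ' 2 (m + 3)] at h2
    exact (Nat.not_even_iff_odd.2 hc) (even_iff_two_dvd.2
      (Nat.dvd_of_mul_dvd_mul_right (by positivity) h2))
  · obtain ⟨c, -, e⟩ := three (m + 1)
    have := congrArg (Nat.cast : ℕ → ZMod (2 ^ (m + 4))) e
    rw [Nat.cast_add, Nat.cast_mul, ZMod.natCast_self, mul_zero, add_zero] at this
    exact_mod_cast this

lemma x_inj (m : ℕ) : Set.InjOn (x m) (range (2 ^ (m + 2)) : Finset ℕ) := by
  intro i hi j hj h
  rw [coe_range, Set.mem_Iio] at hi hj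
  obtain ⟨k, hk | hk⟩ := cos_eq_cos_iff.1 h
  · have e : (3 : ℤ) ^ j = k * 2 ^ (m + 4) + 3 ^ i := by
      have : (3 : ℝ) ^ j = k * 2 ^ (m + 4) + 3 ^ i := by
        field_simp at hk
        linarith
      exact_mod_cast this
    have e2 := congrArg (Int.cast : ℤ → ZMod (2 ^ (m + 4))) e
    have z : (2 : ZMod (2 ^ (m + 4))) ^ (m + 4) = 0 := by
      exact_mod_cast ZMod.natCast_self (2 ^ (m + 4))
    push_cast at e2
    rw [z, mul_zero, zero_add] at e2
    exact (pow_injOn_Iio_orderOf (by rwa [ord]) (by rwa [ord]) e2).symm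
  · exfalso
    have e : (3 : ℤ) ^ j = k * 2 ^ (m + 4) - 3 ^ i := by
      have : (3 : ℝ) ^ j = k * 2 ^ (m + 4) - 3 ^ i := by
        field_simp at hk
        linarith
      exact_mod_cast this
    have h8 : ∀ n : ℕ, (3 : ℤ) ^ n % 8 = 1 ∨ (3 : ℤ) ^ n % 8 = 3 := by
      intro n
      induction n with
      | zero => simp
      | succ n ih => rw [pow_succ]; omega
    have := h8 i
    have := h8 j
    rw [show k * 2 ^ (m + 4) = 8 * (k * 2 ^ (m + 1)) by ring] at e
    omega

theorem result (K : ℕ) (hK : 3 ≤ K) (M : ℕ) : ∃ S : Finset ℝ, M ≤ S.card ∧ ∃ f g : ℝ[X],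
    f ≠ g ∧ 2 ≤ f.natDegree ∧ f.natDegree ≤ K ∧ 2 ≤ g.natDegree ∧ g.natDegree ≤ K ∧
    Compresses f S ∧ Compresses g S := by
  have hc : ((range (2 ^ (M + 2))).image (x M)).card = 2 ^ (M + 2) := by
    rw [card_image_of_injOn (x_inj M), card_range]
  have hd : (C 4 * X ^ 3 - C 3 * X : ℝ[X]).natDegree = 3 := by compute_degree!
  have h0 : x M 0 ∈ (range (2 ^ (M + 2))).image (x M) :=
    mem_image_of_mem _ (mem_range.2 (by positivity))
  refine ⟨(range (2 ^ (M + 2))).image (x M), ?_, C 4 * X ^ 3 - C 3 * X, -(C 4 * X ^ 3 - C 3 * X),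
    fun h => ?_, by omega, by omega, by rw [natDegree_neg]; omega, by rw [natDegree_neg]; omega,
    ⟨_, h0, ?_⟩, ⟨_, h0, ?_⟩⟩
  · rw [hc]
    exact (Nat.lt_two_pow_self.le).trans (Nat.pow_le_pow_right two_pos (by omega))
  · have := congrArg (eval 1) h
    norm_num at this
  · rw [hc]
    congr 1
    funext i
    induction i with
    | zero => rfl
    | succ i ih => rw [Function.iterate_succ_apply', ← ih, x_succ]; simp
  · have e : ∀ i, (fun y => (-(C 4 * X ^ 3 - C 3 * X : ℝ[X])).eval y)^[i] (x M 0) =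
        x M (i * (1 + 2 ^ (M + 1)) % 2 ^ (M + 2)) := by
      intro i
      rw [x_mod]
      induction i with
      | zero => simp
      | succ i ih =>
        rw [Function.iterate_succ_apply', ih, add_one_mul, ← add_assoc, x_half, x_succ]
        simp
    have cp : (2 ^ (M + 2)).Coprime (1 + 2 ^ (M + 1)) :=
      Nat.Coprime.pow_left _ (Nat.coprime_two_left.2 (by
        rw [pow_succ]; exact odd_one.add_even (even_two.mul_left _)))
    have im : (range (2 ^ (M + 2))).image (fun i => i * (1 + 2 ^ (M + 1)) % 2 ^ (M + 2)) =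
        range (2 ^ (M + 2)) := by
      refine eq_of_subset_of_card_le (fun j hj => ?_) (card_image_of_injOn fun i hi j hj h => ?_).ge
      · obtain ⟨i, -, rfl⟩ := mem_image.1 hj
        exact mem_range.2 (Nat.mod_lt _ (by positivity))
      · rw [coe_range, Set.mem_Iio] at hi hj
        exact (Nat.ModEq.cancel_right_of_coprime cp h).eq_of_lt_of_lt hi hj
    simp only [hc, e]
    conv_lhs => rw [← im, image_image]
    rfl

end Pool.Agent.Results.MP_29b953_an.Cheb
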